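import Pool.Agent.Helper67.VF.E
import Pool.Agent.Helper61.BT.Goals

/-!
# Packet DVB of project BT

As `Helper67.VF.E`, with the finite stabilizer `F` of the cut `d` in place of the trivial one.
-/

set_option autoImplicit false

namespace Pool.Agent.Helper67.BT

open Pool.Agent.Helper27.VF Pool.Agent.Helper61.BT Pool.Agent.Helper67.VF

universe u

section
variable {A W : Type u} [Group A] [MulAction A W] {G G₀ : SimpleGraph W} {w : W}
  {p : Ultrafilter W} {k : ℕ}

/-- the stabilizer of a cut -/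
def Fx (d : Set W × Set W) : Subgroup A where
  carrier := {g | tr g d = d}
  one_mem' := tr_one d
  mul_mem' := by
    intro a b ha hb
    show tr (a * b) d = d
    rw [← tr_tr, (show tr b d = d from hb), (show tr a d = d from ha)]
  inv_mem' := by
    intro a ha
    show tr a⁻¹ d = d
    have h1 : tr a⁻¹ (tr a d) = tr a⁻¹ d := by rw [(show tr a d = d from ha)]
    rw [← h1, tr_tr, inv_mul_cancel, tr_one]

theorem mem_fx {d : Set W × Set W} {g : A} : g ∈ (Fx d : Subgroup A) ↔ tr g d = d := Iff.rfl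

theorem tr_eq_iff {d : Set W × Set W} {g g' : A} :
    tr g d = tr g' d ↔ g'⁻¹ * g ∈ (Fx d : Subgroup A) := by
  rw [mem_fx]
  constructor
  · intro hg
    have h2 : tr g'⁻¹ (tr g d) = tr g'⁻¹ (tr g' d) := congrArg _ hg
    rwa [tr_tr, tr_tr, inv_mul_cancel, tr_one] at h2
  · intro hg
    have h2 : tr g' (tr (g'⁻¹ * g) d) = tr g' d := congrArg _ hg
    rwa [tr_tr, mul_inv_cancel_left] at h2

theorem sd_fx {d : Set W × Set W} {q f : A} (hf : f ∈ (Fx d : Subgroup A)) (x : A) :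
    Sd p d (q * f) x ↔ Sd p d q x := by
  unfold Sd
  have : tr (q * f) d = tr q d := by
    rw [tr_eq_iff, ← mul_assoc, inv_mul_cancel, one_mul]
    exact hf
  rw [this]

theorem sp_finiteF (h : Stg A G G₀ w p) {d : Set W × Set W} (hd : d ∈ DD A G p k)
    (hP : ∀ x y : W, {c | c ∈ SS A G p k ∧ x ∉ c.2 ∧ y ∉ c.1}.Finite)
    (hF : {g : A | tr g d = d}.Finite) (x : A) : (Sp p d x).Finite := by
  have hfib : ∀ b : Set W × Set W, ((fun g : A => tr g d) ⁻¹' {b}).Finite := by
    intro b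
    by_cases hb : ∃ g₀ : A, tr g₀ d = b
    · obtain ⟨g₀, rfl⟩ := hb
      refine (hF.image fun f => g₀ * f).subset ?_
      intro g hg
      refine ⟨g₀⁻¹ * g, tr_eq_iff.1 hg, ?_⟩
      show g₀ * (g₀⁻¹ * g) = g
      rw [mul_inv_cancel_left]
    · refine Set.Finite.subset Set.finite_empty ?_
      intro g hg
      exact hb ⟨g, hg⟩
  have hfin := ((hP w (x • w)).union (hP (x • w) w)).preimage' (f := fun g : A => tr g d)
    (fun b _ => hfib b)
  refine hfin.subset ?_
  intro g hg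
  have hs := SS.tr h hd.1 g
  have e1 : Inn p x (tr g d).1 ↔ ¬ Sd p d g x := inn_fst_iff h hd.1 g x
  have e2 : Inn p (1 : A) (tr g d).1 ↔ ¬ Sd p d g 1 := inn_fst_iff h hd.1 g 1
  by_cases hx : Sd p d g x
  · have h1 : ¬ Sd p d g 1 := fun h1 => hg (iff_of_true hx h1)
    left
    refine ⟨hs, fun hw => h1 ?_, fun hw => ?_⟩
    · exact fact1' h hs.1 (a := (1 : A)) (by rwa [one_smul])
    · exact (e1.1 (fact1 h hs.1 hw)) hx
  · have h1 : Sd p d g 1 := by
      by_contra h1
      exact hg (iff_of_false hx h1)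
    right
    refine ⟨hs, fun hw => hx ?_, fun hw => ?_⟩
    · exact fact1' h hs.1 hw
    · exact (e2.1 (fact1 h hs.1 (a := (1 : A)) (by rwa [one_smul]))) h1

/-- The combinatorial part: the smallest support. -/
theorem supportF (h : Stg A G G₀ w p) (hk : Mn A G p k) {d : Set W × Set W}
    (hd : d ∈ DD A G p k)
    (hP : ∀ x y : W, {c | c ∈ SS A G p k ∧ x ∉ c.2 ∧ y ∉ c.1}.Finite)
    (hF : {g : A | tr g d = d}.Finite) :
    ∃ x : A, Sd p d (1 : A) x ∧ ¬ Sd p d (1 : A) (1 : A) ∧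
      (Sp p d x = {q | q ∈ (Fx d : Subgroup A)} ∨
      ∃ g : A, g ∉ (Fx d : Subgroup A) ∧
        Sp p d x = {q | q ∈ (Fx d : Subgroup A) ∨ g⁻¹ * q ∈ (Fx d : Subgroup A)} ∧
        Sd p d g (1 : A) ∧ ¬ Sd p d g x) := by
  have hfin := sp_finiteF h hd hP hF
  obtain ⟨a, b, hab⟩ := hd.1.2.2
  have hb : Sd p d (1 : A) b := by
    unfold Sd
    rw [tr_one]
    exact hab.2
  obtain ⟨x, hx, hmin⟩ := WellFounded.has_min (measure (fun x : A => (Sp p d x).ncard)).wf
    {x : A | Sd p d (1 : A) x} ⟨b, hb⟩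
  have hmin' : ∀ y : A, Sd p d (1 : A) y → (Sp p d x).ncard ≤ (Sp p d y).ncard := by
    intro y hy
    have := hmin y hy
    exact not_lt.1 this
  have h11 : ¬ Sd p d (1 : A) (1 : A) := by
    have := (inn_fst_iff h hd.1 1 1).1
    apply this
    rw [tr_one]
    exact hd.2.1
  have hgg : ∀ g : A, ¬ Sd p d g g := by
    intro g
    have := (sd_mul (p := p) d g 1 1)
    rw [mul_one] at this
    rw [this]
    exact h11
  have h1x : (1 : A) ∈ Sp p d x := fun hc => h11 (hc.1 hx)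
  have hcl : ∀ q f : A, f ∈ (Fx d : Subgroup A) → q ∈ Sp p d x → q * f ∈ Sp p d x := by
    intro q f hf hq
    show ¬ (Sd p d (q * f) x ↔ Sd p d (q * f) 1)
    rw [sd_fx hf, sd_fx hf]
    exact hq
  -- inclusion of supports
  have hsub : ∀ g y : A, Sd p d g y → ∀ z : A, ¬ Sd p d g z →
      ((y = 1 ∧ z = x) ∨ (y = x ∧ z = 1)) → Sp p d g ⊆ Sp p d x := by
    intro g y hy z hz hyz q hq hcon
    have hs := SS.tr h hd.1 q
    have hcon' : (Sd p d q y ↔ Sd p d q z) := by
      rcases hyz with ⟨rfl, rfl⟩ | ⟨rfl, rfl⟩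
      · exact hcon.symm
      · exact hcon
    have hgz : ¬ (Sd p d q g ↔ Sd p d q z) := by
      intro h1
      apply hq
      rcases hyz with ⟨rfl, rfl⟩ | ⟨rfl, rfl⟩
      · exact h1.trans hcon
      · exact h1
    have hz1 : Inn p z (tr g d).1 := (inn_fst_iff h hd.1 g z).2 hz
    by_cases hqg : Sd p d q g
    · have hqz : ¬ Sd p d q z := fun h1 => hgz (iff_of_true hqg h1)
      have hqy : ¬ Sd p d q y := fun h1 => hqz (hcon'.1 h1)
      have h5 := nest_sub h hk hd g y (SS.swap hs) hqg hy ((inn_fst_iff h hd.1 q y).2 hqy)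
      exact hqz (inn_mono h5 hz1)
    · have hqz : Sd p d q z := by
        by_contra h1
        exact hgz (iff_of_false hqg h1)
      have hqy : Sd p d q y := hcon'.2 hqz
      have h5 := nest_sub h hk hd g y hs ((inn_fst_iff h hd.1 q g).2 hqg) hy hqy
      exact ((inn_fst_iff h hd.1 q z).1 (inn_mono h5 hz1)) hqz
  -- an element of the support of `x` outside `F`
  have caseB : ∀ g ∈ Sp p d x, g ∉ (Fx d : Subgroup A) →
      Sd p d g 1 ∧ ¬ Sd p d g x ∧ Sp p d g = Sp p d x := by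
    intro g hg hg1
    by_cases hgx : Sd p d g x
    · -- case A
      exfalso
      have hg1' : ¬ Sd p d g 1 := fun h1 => hg (iff_of_true hgx h1)
      have h1e : Inn p (1 : A) (tr g d).1 := (inn_fst_iff h hd.1 g 1).2 hg1'
      have hdx : Inn p x (tr (1 : A) d).2 := hx
      have A1 : Sd p d 1 g := by
        by_contra hcon
        have h1 := nest h hk hd 1 x (SS.tr h hd.1 g) h1e hdx hgx
        have h2 := nest h hk hd g x (SS.tr h hd.1 1) ((inn_fst_iff h hd.1 1 g).2 hcon) hgx hdx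
        rw [cor_comm, h1, tr_one] at h2
        exact hg1 (mem_fx.2 h2.symm)
      have A2 := hsub g x hgx 1 hg1' (Or.inr ⟨rfl, rfl⟩)
      have hgn : g ∉ Sp p d g := fun hc => hc (iff_of_false (hgg g) hg1')
      have hlt : (Sp p d g).ncard < (Sp p d x).ncard :=
        Set.ncard_lt_ncard ⟨A2, fun hc => hgn (hc hg)⟩ (hfin x)
      exact absurd (hmin' g A1) (not_le.2 hlt)
    · have hg1' : Sd p d g 1 := by
        by_contra h1
        exact hg (iff_of_false hgx h1)
      have B1 : Sd p d 1 g := by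
        by_contra hcon
        have h1 := nest_sub h hk hd 1 x (SS.swap (SS.tr h hd.1 g)) hg1' hx
          ((inn_fst_iff h hd.1 g x).2 hgx)
        have h2 : Inn p g (tr (1 : A) d).1 := (inn_fst_iff h hd.1 1 g).2 hcon
        exact hgg g (inn_mono h1 h2)
      have B2 := hsub g 1 hg1' x hgx (Or.inl ⟨rfl, rfl⟩)
      exact ⟨hg1', hgx, Set.eq_of_subset_of_ncard_le B2 (hmin' g B1) (hfin x)⟩
  refine ⟨x, hx, h11, ?_⟩
  by_cases hall : ∃ g ∈ Sp p d x, g ∉ (Fx d : Subgroup A)
  · obtain ⟨g, hg, hg1⟩ := hall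
    obtain ⟨b1, b2, b3⟩ := caseB g hg hg1
    refine Or.inr ⟨g, hg1, ?_, b1, b2⟩
    apply Set.eq_of_subset_of_subset
    · intro g' hg'
      by_cases hg'1 : g' ∈ (Fx d : Subgroup A)
      · exact Or.inl hg'1
      right
      obtain ⟨c1, c2, c3⟩ := caseB g' hg' hg'1
      have hside : ∀ g₁ : A, Sp p d g₁ = Sp p d x → ∀ q : A, (Sd p d q g₁ ↔ Sd p d q x) := by
        intro g₁ he q
        by_cases hq : q ∈ Sp p d x
        · have hq' : q ∈ Sp p d g₁ := by rw [he]; exact hq
          have f1 : ¬ (Sd p d q x ↔ Sd p d q 1) := hq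
          have f2 : ¬ (Sd p d q g₁ ↔ Sd p d q 1) := hq'
          tauto
        · have hq' : q ∉ Sp p d g₁ := by rw [he]; exact hq
          have f1 : (Sd p d q x ↔ Sd p d q 1) := not_not.1 hq
          have f2 : (Sd p d q g₁ ↔ Sd p d q 1) := not_not.1 hq'
          exact f2.trans f1.symm
      have s1 : ¬ Sd p d g' g := fun hc => c2 ((hside g b3 g').1 hc)
      have s2 : ¬ Sd p d g g' := fun hc => b2 ((hside g' c3 g).1 hc)
      have n1 := nest h hk hd g 1 (SS.tr h hd.1 g') ((inn_fst_iff h hd.1 g' g).2 s1) b1 c1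
      have n2 := nest h hk hd g' 1 (SS.tr h hd.1 g) ((inn_fst_iff h hd.1 g g').2 s2) c1 b1
      rw [cor_comm, n1] at n2
      exact tr_eq_iff.1 n2.symm
    · rintro q (hq | hq)
      · have := hcl 1 q hq h1x
        rwa [one_mul] at this
      · have := hcl g _ hq hg
        rwa [mul_inv_cancel_left] at this
  · left
    apply Set.eq_of_subset_of_subset
    · intro q hq
      by_contra hcon
      exact hall ⟨q, hq, hcon⟩
    · intro q hq
      have := hcl 1 q hq h1x
      rwa [one_mul] at this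

end

open Classical in
/-- the sum over a finite group of the multiples of a fixed vector -/
theorem sum_fx {A : Type u} [Group A] (F : Subgroup A) (hF : (F : Set A).Finite)
    {M : Type u} [AddCommGroup M] [Module ℝ M] [DistribMulAction A M] (hL : Lin A M) (v : M)
    (hv : ∀ e ∈ F, e • v = v) :
    (Function.support fun q : A => (if q ∈ F then (1 : ℤ) else 0) •
      (q • (((Nat.card F : ℝ))⁻¹ • v))).Finite ∧
    ∑ᶠ q : A, (if q ∈ F then (1 : ℤ) else 0) • (q • (((Nat.card F : ℝ))⁻¹ • v)) = v := by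
  have hsub : (Function.support fun q : A => (if q ∈ F then (1 : ℤ) else 0) •
      (q • (((Nat.card F : ℝ))⁻¹ • v))) ⊆ (hF.toFinset : Set A) := by
    intro q hq
    rw [Set.Finite.coe_toFinset]
    by_contra hcon
    have hcon' : q ∉ F := hcon
    apply hq
    show (if q ∈ F then (1 : ℤ) else 0) • (q • (((Nat.card F : ℝ))⁻¹ • v)) = 0
    rw [if_neg hcon', zero_smul]
  refine ⟨(Finset.finite_toSet _).subset hsub, ?_⟩
  rw [finsum_eq_sum_of_support_subset _ hsub]
  have h1 : ∀ q ∈ hF.toFinset, (if q ∈ F then (1 : ℤ) else 0) • (q • (((Nat.card F : ℝ))⁻¹ • v))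
      = ((Nat.card F : ℝ))⁻¹ • v := by
    intro q hq
    have hq' : q ∈ F := by
      have := hF.mem_toFinset.1 hq
      exact this
    rw [if_pos hq', one_smul, hL, hv q hq']
  rw [Finset.sum_congr rfl h1, Finset.sum_const]
  have h2 : hF.toFinset.card = Nat.card F := by
    rw [← Set.ncard_eq_toFinset_card _ hF]
    rfl
  have : Finite F := hF
  have h3 : (Nat.card F : ℝ) ≠ 0 := by
    have : Nat.card F ≠ 0 := Nat.card_pos.ne'
    exact_mod_cast this
  rw [h2, ← Nat.cast_smul_eq_nsmul ℝ, smul_smul, mul_inv_cancel₀ h3, one_smul]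

/-- **DVB.** -/
theorem dvb (hPth : PthStmt.{u}) (hOra : OraStmt.{u}) (hFrb : FrbStmt.{u}) (hLmb : LmbStmt.{u})
    (hDrb : DrbStmt.{u}) : DvbStmt.{u} := by
  classical
  intro A W _ _ G G₀ w p h k hk hSS
  constructor
  · obtain ⟨Λ, lam, hlab, -⟩ := hLmb A W G G₀ w p h k hk
    intro M _ _ _ hL f hf
    exact hDrb A _ Λ lam hlab M hL f hf
  have hP := hPth A W G G₀ w p h k hk
  have hO := hOra A W G G₀ w p h k hk
  obtain ⟨c, hc⟩ := hSS
  have hc' : ∃ c ∈ SS A G p k, Inn p (1 : A) c.1 := by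
    by_cases h1 : Inn p (1 : A) c.1
    · exact ⟨c, hc, h1⟩
    · exact ⟨(c.2, c.1), SS.swap hc, (inn_snd h hc.1).2 h1⟩
  obtain ⟨c', hc1, hc2⟩ := hc'
  obtain ⟨d, hd, -⟩ := hO.1 c' hc1 hc2
  have hF := (hFrb A W G G₀ w p h k hk).2 d hd.1
  have hfin := sp_finiteF h hd hP hF
  obtain ⟨x, hx, h11, hcase⟩ := supportF h hk hd hP hF
  have hF' : ((Fx d : Subgroup A) : Set A).Finite := hF
  -- the coefficients on the stabilizer
  have hFx : ∀ q : A, q ∈ (Fx d : Subgroup A) → Sd p d q x ∧ ¬ Sd p d q 1 := by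
    intro q hq
    have e1 := sd_fx (p := p) (q := (1 : A)) hq x
    have e2 := sd_fx (p := p) (q := (1 : A)) hq (1 : A)
    rw [one_mul] at e1 e2
    exact ⟨e1.2 hx, fun hc => h11 (e2.1 hc)⟩
  have hout : ∀ q : A, q ∉ Sp p d x → ((if Sd p d q x then (1 : ℤ) else 0) -
      (if Sd p d q 1 then (1 : ℤ) else 0)) = 0 := by
    intro q hq
    have hcon : Sd p d q x ↔ Sd p d q 1 := not_not.1 hq
    by_cases h4 : Sd p d q 1
    · rw [if_pos h4, if_pos (hcon.2 h4), sub_self]
    · rw [if_neg h4, if_neg (fun h5 => h4 (hcon.1 h5)), sub_self]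
  rcases hcase with hcase | ⟨g, hg1, hcase, hs1, hs2⟩
  · -- support `F`
    refine ⟨x, Fx d, none, hF', fun y hy => by simp at hy, fun M _ _ _ hL v hv => ?_⟩
    obtain ⟨δ, h1, h2, h3⟩ := deriv h hd hfin (((Nat.card (Fx d : Subgroup A) : ℝ))⁻¹ • v)
    refine ⟨δ, h1, h2, ?_⟩
    rw [h3]
    show _ = v
    refine Eq.trans (finsum_congr fun q => ?_) (sum_fx (Fx d) hF' hL v hv).2
    congr 1
    by_cases hq : q ∈ (Fx d : Subgroup A)
    · rw [if_pos hq, if_pos (hFx q hq).1, if_neg (hFx q hq).2, sub_zero]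
    · rw [if_neg hq]
      apply hout
      rw [hcase]
      exact hq
  · refine ⟨x, Fx d, some g, hF', ?_, fun M _ _ _ hL v hv => ?_⟩
    · intro y hy
      rw [Option.some.injEq] at hy
      rw [← hy]
      exact hg1
    obtain ⟨δ, h1, h2, h3⟩ := deriv h hd hfin (((Nat.card (Fx d : Subgroup A) : ℝ))⁻¹ • v)
    refine ⟨δ, h1, h2, ?_⟩
    rw [h3]
    show _ = v - g • v
    set m := ((Nat.card (Fx d : Subgroup A) : ℝ))⁻¹ • v with hm
    obtain ⟨k1, k2⟩ := sum_fx (Fx d) hF' hL v hv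
    -- the translated sum
    have k3 : g • v = ∑ᶠ q : A, (if g⁻¹ * q ∈ (Fx d : Subgroup A) then (1 : ℤ) else 0) • (q • m) := by
      have e3 := map_finsum (DistribSMul.toAddMonoidHom M g)
        (f := fun q : A => (if q ∈ (Fx d : Subgroup A) then (1 : ℤ) else 0) • (q • m)) k1
      have e4 : g • (∑ᶠ q : A, (if q ∈ (Fx d : Subgroup A) then (1 : ℤ) else 0) • (q • m))
        = ∑ᶠ q : A, g • ((if q ∈ (Fx d : Subgroup A) then (1 : ℤ) else 0) • (q • m)) := e3
      rw [k2] at e4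
      rw [e4]
      have e2 : (∑ᶠ q : A, (if g⁻¹ * q ∈ (Fx d : Subgroup A) then (1 : ℤ) else 0) • (q • m)) =
          ∑ᶠ q : A, (if g⁻¹ * (g * q) ∈ (Fx d : Subgroup A) then (1 : ℤ) else 0) • ((g * q) • m) :=
        (finsum_comp_equiv (Equiv.mulLeft g) (f := fun q : A =>
          (if g⁻¹ * q ∈ (Fx d : Subgroup A) then (1 : ℤ) else 0) • (q • m))).symm
      rw [e2]
      refine finsum_congr fun q => ?_
      rw [inv_mul_cancel_left, mul_smul, smul_comm]
    have k4 : (Function.support fun q : A =>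
        (if g⁻¹ * q ∈ (Fx d : Subgroup A) then (1 : ℤ) else 0) • (q • m)).Finite := by
      refine (hF'.image fun f => g * f).subset ?_
      intro q hq
      refine ⟨g⁻¹ * q, ?_, by show g * (g⁻¹ * q) = q; rw [mul_inv_cancel_left]⟩
      by_contra hcon
      have hcon' : g⁻¹ * q ∉ (Fx d : Subgroup A) := hcon
      apply hq
      show (if g⁻¹ * q ∈ (Fx d : Subgroup A) then (1 : ℤ) else 0) • (q • m) = 0
      rw [if_neg hcon', zero_smul]
    rw [k3]
    have k6 : v - ∑ᶠ q : A, (if g⁻¹ * q ∈ (Fx d : Subgroup A) then (1 : ℤ) else 0) • (q • m)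
        = (∑ᶠ q : A, (if q ∈ (Fx d : Subgroup A) then (1 : ℤ) else 0) • (q • m))
          - ∑ᶠ q : A, (if g⁻¹ * q ∈ (Fx d : Subgroup A) then (1 : ℤ) else 0) • (q • m) := by
      rw [k2]
    rw [k6, ← finsum_sub_distrib k1 k4]
    refine finsum_congr fun q => ?_
    rw [← sub_smul]
    congr 1
    by_cases hq : q ∈ (Fx d : Subgroup A)
    · have hq2 : g⁻¹ * q ∉ (Fx d : Subgroup A) := by
        intro hc
        apply hg1
        have := (Fx d : Subgroup A).mul_mem hq ((Fx d : Subgroup A).inv_mem hc)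
        rwa [mul_inv_rev, inv_inv, mul_inv_cancel_left] at this
      rw [if_pos hq, if_neg hq2, if_pos (hFx q hq).1, if_neg (hFx q hq).2]
    · by_cases hq2 : g⁻¹ * q ∈ (Fx d : Subgroup A)
      · have e1 := sd_fx (p := p) (q := g) hq2 x
        have e2 := sd_fx (p := p) (q := g) hq2 (1 : A)
        rw [mul_inv_cancel_left] at e1 e2
        rw [if_neg hq, if_pos hq2, if_neg (fun hc => hs2 (e1.1 hc)), if_pos (e2.2 hs1)]
      · rw [if_neg hq, if_neg hq2, sub_self]
        apply hout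
        rw [hcase]
        rintro (hc | hc)
        · exact hq hc
        · exact hq2 hc

end Pool.Agent.Helper67.BT
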